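import Pool.Agent.T9h54.LZ.Spec

/-!
# Project LZ, piece E2: a prime `P` with few characters modulo `q P` vanishing at a point

Author: helper65.
-/

set_option autoImplicit false

namespace Pool.Agent.T9h65.LZ

open Finset Filter DirichletCharacter
open Pool.Agent.T9h54.LZ

/-- the factors of the change of level do not vanish -/
lemma fac_ne (M : ℕ) (ψ : DirichletCharacter ℂ M) {ρ : ℂ} (hρ : 0 < ρ.re) (N : ℕ) :
    ∏ p ∈ N.primeFactors, (1 - ψ p * (p : ℂ) ^ (-ρ)) ≠ 0 := by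
  refine prod_ne_zero_iff.2 fun p hp => ?_
  have hp1 := Nat.prime_of_mem_primeFactors hp
  intro h
  have h1 : ψ p * (p : ℂ) ^ (-ρ) = 1 := (sub_eq_zero.1 h).symm
  have h2 : ‖ψ p * (p : ℂ) ^ (-ρ)‖ < 1 := by
    rw [norm_mul, Complex.norm_natCast_cpow_of_pos hp1.pos, Complex.neg_re]
    calc ‖ψ p‖ * (p : ℝ) ^ (-ρ.re) ≤ 1 * (p : ℝ) ^ (-ρ.re) :=
          mul_le_mul_of_nonneg_right (ψ.norm_le_one _) (by positivity)
      _ < 1 := by
          rw [one_mul]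
          exact Real.rpow_lt_one_of_one_lt_of_neg (by exact_mod_cast hp1.one_lt) (by linarith)
  rw [h1, norm_one] at h2
  exact lt_irrefl _ h2

lemma zero_iff {M N : ℕ} [NeZero M] [NeZero N] (h : M ∣ N) (ψ : DirichletCharacter ℂ M) {ρ : ℂ}
    (hρ : 0 < ρ.re) (hρ1 : ρ ≠ 1) :
    LFunction (changeLevel h ψ) ρ = 0 ↔ LFunction ψ ρ = 0 := by
  rw [LFunction_changeLevel h ψ (Or.inr hρ1), mul_eq_zero, or_iff_left (fac_ne M ψ hρ N)]

/-- the primes in `(n / 8, n]` -/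
def PP (n : ℕ) : Finset ℕ := (Ioc (n / 8) n).filter Nat.Prime

lemma theta_sub (n : ℕ) : Chebyshev.theta n - Chebyshev.theta ((n / 8 : ℕ) : ℝ) ≤
    (PP n).card * Real.log n := by
  have h1 : ∀ m : ℕ, Chebyshev.theta (m : ℝ) = ∑ p ∈ (Ioc 0 m).filter Nat.Prime, Real.log p := by
    intro m
    rw [Chebyshev.theta, Nat.floor_natCast]
  have h2 : (Ioc 0 n).filter Nat.Prime = (Ioc 0 (n / 8)).filter Nat.Prime ∪ PP n := by
    ext p
    simp only [PP, mem_filter, mem_union, mem_Ioc]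
    have := Nat.div_le_self n 8
    constructor
    · rintro ⟨⟨a, b⟩, c⟩
      by_cases h : p ≤ n / 8
      · exact Or.inl ⟨⟨a, h⟩, c⟩
      · exact Or.inr ⟨⟨by omega, b⟩, c⟩
    · rintro (⟨⟨a, b⟩, c⟩ | ⟨⟨a, b⟩, c⟩)
      · exact ⟨⟨a, by omega⟩, c⟩
      · exact ⟨⟨by omega, b⟩, c⟩
  have h3 : Disjoint ((Ioc 0 (n / 8)).filter Nat.Prime) (PP n) := by
    rw [disjoint_left]
    intro p h4 h5
    simp only [PP, mem_filter, mem_Ioc] at h4 h5
    omega
  rw [h1, h1, h2, sum_union h3, add_sub_cancel_left]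
  have h4 : ∀ p ∈ PP n, Real.log p ≤ Real.log n := by
    intro p hp
    simp only [PP, mem_filter, mem_Ioc] at hp
    exact Real.log_le_log (by exact_mod_cast hp.2.pos) (by exact_mod_cast hp.1.2)
  refine (sum_le_card_nsmul _ _ _ h4).trans ?_
  rw [nsmul_eq_mul]

lemma PP_large : ∀ᶠ n : ℕ in atTop, (n : ℝ) / 4 ≤ (PP n).card * Real.log n := by
  have h1 : ∀ᶠ n : ℕ in atTop, Real.log (n + 1) + 2 * √n * Real.log n ≤ 1 / 10 * (n:ℝ) := by
    have a1 : (fun x : ℝ => Real.log x) =o[atTop] fun x : ℝ => x ^ (1 / 4 : ℝ) :=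
      isLittleO_log_rpow_atTop (by norm_num)
    have a2 := (a1.bound (by norm_num : (0:ℝ) < 1 / 100)).and (eventually_ge_atTop (16:ℝ))
    have a3 := tendsto_natCast_atTop_atTop.eventually (a2.and
      ((tendsto_rpow_atTop (by norm_num : (0:ℝ) < 1 / 4)).eventually_ge_atTop 100))
    filter_upwards [a3] with n hn
    obtain ⟨⟨b1, b2⟩, b3⟩ := hn
    have hn0 : (0:ℝ) < n := by linarith
    rw [Real.norm_of_nonneg (Real.log_nonneg (by linarith)), Real.norm_of_nonneg (by positivity)] at b1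
    have b4 : √(n:ℝ) = ((n:ℝ) ^ (1 / 4 : ℝ)) ^ 2 := by
      rw [← Real.rpow_natCast, ← Real.rpow_mul hn0.le, Real.sqrt_eq_rpow]
      norm_num
    have b5 : (n:ℝ) = ((n:ℝ) ^ (1 / 4 : ℝ)) ^ 4 := by
      rw [← Real.rpow_natCast, ← Real.rpow_mul hn0.le]
      norm_num
    have b6 : Real.log (n + 1) ≤ Real.log n + 1 := by
      have : Real.log (n + 1) ≤ Real.log (2 * n) :=
        Real.log_le_log (by linarith) (by linarith)
      rw [Real.log_mul (by norm_num) hn0.ne'] at this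
      have := Real.log_two_lt_d9
      linarith
    rw [b4]
    set y := (n:ℝ) ^ (1 / 4 : ℝ) with hy
    have b7 : 2 * y ^ 2 * Real.log n ≤ 2 * y ^ 2 * (1 / 100 * y) :=
      mul_le_mul_of_nonneg_left b1 (by positivity)
    have b8 : (100:ℝ) ≤ y := b3
    have b9 : 1 ≤ y ^ 4 / 100 := by
      have : (100:ℝ) ^ 4 ≤ y ^ 4 := pow_le_pow_left₀ (by norm_num) b8 4
      linarith
    have b10 : y ≤ y ^ 4 := le_self_pow₀ (by linarith) (by norm_num)
    have b11 : y ^ 3 ≤ y ^ 4 := pow_le_pow_right₀ (by linarith) (by norm_num)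
    have b12 : 2 * y ^ 2 * (1 / 100 * y) = 1 / 50 * y ^ 3 := by ring
    have b13 : (n:ℝ) = y ^ 4 := b5
    linarith
  filter_upwards [h1] with n hn
  have h2 := theta_sub n
  have h3 := Chebyshev.theta_ge n
  have h4 : Chebyshev.theta ((n / 8 : ℕ) : ℝ) ≤ Real.log 4 * ((n:ℝ) / 8) := by
    refine (Chebyshev.theta_le_log4_mul_x (by positivity)).trans ?_
    refine mul_le_mul_of_nonneg_left ?_ (Real.log_nonneg (by norm_num))
    exact Nat.cast_div_le
  have h5 : Real.log 4 = 2 * Real.log 2 := by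
    rw [show (4:ℝ) = 2 ^ 2 by norm_num, Real.log_pow]; norm_num
  have h6 := Real.log_two_gt_d9
  have h7 : (0:ℝ) ≤ n := by positivity
  rw [h5] at h4
  nlinarith

/-- the number of primitive characters modulo `r + 1` which vanish at `ρ` -/
noncomputable def nn (ρ : ℂ) (r : ℕ) : ℕ :=
  Set.ncard {χ : DirichletCharacter ℂ (r + 1) | χ.IsPrimitive ∧ DirichletCharacter.LFunction χ ρ = 0}

instance (N : ℕ) [NeZero N] : Finite (DirichletCharacter ℂ N) := inferInstance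

/-- the levels for a prime `P` -/
def lev (q n P : ℕ) : Finset ℕ := (range (q * n)).filter fun r => P ∣ r + 1 ∧ r + 1 ∣ q * P

/-- the characters modulo `q P` which vanish at `ρ` -/
lemma card_V (q : ℕ) [NeZero q] {ρ : ℂ} (hρ : 0 < ρ.re) (hρ1 : ρ ≠ 1) (P n : ℕ) (hP : P.Prime)
    (hPn : P ≤ n) [NeZero (q * P)] :
    Set.ncard {χ : DirichletCharacter ℂ (q * P) | DirichletCharacter.LFunction χ ρ = 0} ≤
      Nat.card (DirichletCharacter ℂ q) + ∑ r ∈ lev q n P, nn ρ r := by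
  classical
  set V : Set (DirichletCharacter ℂ (q * P)) :=
    {χ : DirichletCharacter ℂ (q * P) | DirichletCharacter.LFunction χ ρ = 0} with hV
  -- the images of the characters of smaller level
  let T : ℕ → Set (DirichletCharacter ℂ (q * P)) := fun r =>
    {χ | ∃ h : r + 1 ∣ q * P, ∃ ψ : DirichletCharacter ℂ (r + 1),
      (ψ.IsPrimitive ∧ DirichletCharacter.LFunction ψ ρ = 0) ∧ changeLevel h ψ = χ}
  have hT : ∀ r, (T r).ncard ≤ nn ρ r := by
    intro r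
    by_cases h : r + 1 ∣ q * P
    · have h1 : T r = (changeLevel h) '' {ψ : DirichletCharacter ℂ (r + 1) |
          ψ.IsPrimitive ∧ DirichletCharacter.LFunction ψ ρ = 0} := by
        ext χ
        constructor
        · rintro ⟨_, ψ, h2, h3⟩; exact ⟨ψ, h2, h3⟩
        · rintro ⟨ψ, h2, h3⟩; exact ⟨h, ψ, h2, h3⟩
      rw [h1]
      exact Set.ncard_image_le (Set.toFinite _)
    · have h1 : T r = ∅ := by
        ext χ
        simp only [Set.mem_empty_iff_false, iff_false]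
        rintro ⟨h2, _⟩
        exact h h2
      rw [h1, Set.ncard_empty]
      exact Nat.zero_le _
  have hsub : V ⊆ Set.range (changeLevel (R := ℂ) (Dvd.intro P rfl : q ∣ q * P)) ∪
      ⋃ r ∈ lev q n P, T r := by
    intro χ hχ
    by_cases hc : P ∣ χ.conductor
    · right
      have h0 : χ.conductor ≠ 0 := conductor_ne_zero χ
      obtain ⟨r, hr⟩ : ∃ r, χ.conductor = r + 1 := ⟨χ.conductor - 1, by omega⟩
      have hf : FactorsThrough χ (r + 1) := hr ▸ factorsThrough_conductor χ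
      have hdvd : r + 1 ∣ q * P := hf.dvd
      have hr1 : r ∈ lev q n P := by
        rw [lev, mem_filter, mem_range]
        refine ⟨?_, hr ▸ hc, hdvd⟩
        have h1 : r + 1 ≤ q * P := Nat.le_of_dvd (Nat.pos_of_ne_zero (NeZero.ne _)) hdvd
        have h2 : q * P ≤ q * n := Nat.mul_le_mul_left q hPn
        omega
      rw [Set.mem_iUnion₂]
      refine ⟨r, hr1, hdvd, hf.χ₀, ⟨?_, ?_⟩, hf.eq_changeLevel.symm⟩
      · rw [isPrimitive_def]
        have a1 := conductor_changeLevel hf.χ₀ hdvd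
        have a2 : conductor (changeLevel hdvd hf.χ₀) = conductor χ :=
          congrArg conductor hf.eq_changeLevel.symm
        rw [← a1, a2, hr]
      · rw [← zero_iff hdvd hf.χ₀ hρ hρ1, ← hf.eq_changeLevel]
        exact hχ
    · left
      have h1 : Nat.Coprime χ.conductor P := ((Nat.Prime.coprime_iff_not_dvd hP).2 hc).symm
      have h2 : χ.conductor ∣ q := h1.dvd_of_dvd_mul_right χ.conductor_dvd_level
      have h3 : FactorsThrough χ q :=
        (mem_conductorSet_iff_conductor_dvd χ (Dvd.intro P rfl : q ∣ q * P)).2 h2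
      exact ⟨h3.χ₀, h3.eq_changeLevel.symm⟩
  have h1 := Set.ncard_le_ncard hsub (Set.toFinite _)
  refine h1.trans ((Set.ncard_union_le _ _).trans (add_le_add ?_ ?_))
  · rw [← Set.image_univ, ← Set.ncard_univ]
    exact Set.ncard_image_le (Set.toFinite _)
  · refine (Finset.set_ncard_biUnion_le _ _).trans ?_
    exact sum_le_sum fun r _ => hT r

/-- the levels for different primes are different -/
lemma sum_lev (q : ℕ) [NeZero q] (ρ : ℂ) (n : ℕ) (hq : q < n / 8) :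
    ∑ P ∈ PP n, ∑ r ∈ lev q n P, nn ρ r ≤ ∑ r ∈ range (q * n), nn ρ r := by
  classical
  rw [← sum_biUnion]
  · refine sum_le_sum_of_subset ?_
    intro r hr
    rw [mem_biUnion] at hr
    obtain ⟨P, _, hr⟩ := hr
    exact (mem_filter.1 hr).1
  · intro P hP P' hP' hne
    rw [Function.onFun, disjoint_left]
    intro r hr hr'
    rw [mem_coe, PP, mem_filter, mem_Ioc] at hP hP'
    rw [lev, mem_filter] at hr hr'
    have h1 : P ∣ q * P' := hr.2.1.trans hr'.2.2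
    rcases (Nat.Prime.dvd_mul hP.2).1 h1 with h2 | h2
    · have := Nat.le_of_dvd (Nat.pos_of_ne_zero (NeZero.ne q)) h2
      omega
    · exact hne ((Nat.prime_dvd_prime_iff_eq hP.2 hP'.2).1 h2)

/-- piece E2 -/
theorem e2 : S_E1 → S_E2 := by
  classical
  intro hE q _ ρ hρ7 hρ1'
  have hρ : 0 < ρ.re := by linarith
  have hρ1 : ρ ≠ 1 := by
    rintro rfl
    simp at hρ1'
  obtain ⟨δ₁, hδ₁, C, hC⟩ := hE ρ hρ7 hρ1'
  obtain ⟨δ, hδ⟩ : ∃ δ : ℝ, δ = min (δ₁ / 4) (1 / 4) := ⟨_, rfl⟩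
  have hδ0 : 0 < δ := by rw [hδ]; exact lt_min (by linarith) (by norm_num)
  have hδ4 : δ ≤ δ₁ / 4 := by rw [hδ]; exact min_le_left _ _
  have hδ2 : δ ≤ 1 / 4 := by rw [hδ]; exact min_le_right _ _
  refine ⟨δ, hδ0, fun K => ?_⟩
  by_contra hcon
  push Not at hcon
  obtain ⟨F, hF⟩ : ∃ F : ℝ, F = Nat.card (DirichletCharacter ℂ q) := ⟨_, rfl⟩
  have hF0 : 0 ≤ F := by rw [hF]; positivity
  obtain ⟨D, hD⟩ : ∃ D : ℝ, D = |C| * (q:ℝ) ^ (3 / 2 - δ₁) := ⟨_, rfl⟩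
  have hq0 : 0 < q := Nat.pos_of_ne_zero (NeZero.ne q)
  have hD0 : 0 ≤ D := by rw [hD]; positivity
  -- large `n`
  have t1 : Tendsto (fun n : ℕ => ((n:ℝ) / 8) ^ (1 / 2 - δ)) atTop atTop :=
    (tendsto_rpow_atTop (by linarith)).comp
      (tendsto_natCast_atTop_atTop.atTop_div_const (by norm_num))
  have t2 : Tendsto (fun n : ℕ => (n:ℝ) ^ (δ₁ / 2)) atTop atTop :=
    (tendsto_rpow_atTop (by linarith)).comp tendsto_natCast_atTop_atTop
  have t3 : ∀ᶠ n : ℕ in atTop, Real.log n ≤ (n:ℝ) ^ (δ₁ / 4) := by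
    have a1 : (fun x : ℝ => Real.log x) =o[atTop] fun x : ℝ => x ^ (δ₁ / 4) :=
      isLittleO_log_rpow_atTop (by linarith)
    have a2 := tendsto_natCast_atTop_atTop.eventually
      ((a1.bound (by norm_num : (0:ℝ) < 1)).and (eventually_ge_atTop (1:ℝ)))
    filter_upwards [a2] with n hn
    have := hn.1
    rw [one_mul, Real.norm_of_nonneg (Real.log_nonneg hn.2), Real.norm_of_nonneg (by positivity)] at this
    exact this
  obtain ⟨n, ⟨⟨n1, n2⟩, n3⟩, n4, n5⟩ := ((((PP_large.and (t1.eventually_ge_atTop (2 * F))).and t3).and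
    ((t2.eventually_gt_atTop (64 * D)).and (eventually_ge_atTop (8 * (K + q + 1)))))).exists
  have hn8 : K + q + 1 ≤ n / 8 := by omega
  have hn0 : (0:ℝ) < n := by
    have : 0 < n := by omega
    exact_mod_cast this
  have hn1 : (1:ℝ) ≤ n := by
    have : 1 ≤ n := by omega
    exact_mod_cast this
  -- the lower bound
  have hlow : ∀ P ∈ PP n, ((n:ℝ) / 8) ^ (1 / 2 - δ) - F ≤ ∑ r ∈ lev q n P, (nn ρ r : ℝ) := by
    intro P hP
    have hP' := hP
    rw [PP, mem_filter, mem_Ioc] at hP'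
    have hPq : ¬ P ∣ q := fun h => by
      have := Nat.le_of_dvd hq0 h
      omega
    obtain ⟨inst, h1⟩ := hcon P hP'.2 (by omega) hPq
    have h2 := card_V q hρ hρ1 P n hP'.2 hP'.1.2
    have h3 : (Set.ncard {χ : DirichletCharacter ℂ (q * P) |
        DirichletCharacter.LFunction χ ρ = 0} : ℝ) ≤ F + ∑ r ∈ lev q n P, (nn ρ r : ℝ) := by
      rw [hF]
      exact_mod_cast h2
    have h4 : ((n:ℝ) / 8) ^ (1 / 2 - δ) ≤ (P:ℝ) ^ (1 / 2 - δ) := by
      refine Real.rpow_le_rpow (by positivity) ?_ (by linarith)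
      rw [div_le_iff₀ (by norm_num)]
      have : n ≤ P * 8 := by omega
      exact_mod_cast this
    linarith
  have hsum : (PP n).card * (((n:ℝ) / 8) ^ (1 / 2 - δ) - F) ≤ D * (n:ℝ) ^ (3 / 2 - δ₁) := by
    have h1 := card_nsmul_le_sum (PP n) _ _ hlow
    rw [nsmul_eq_mul] at h1
    have h2 : ∑ P ∈ PP n, ∑ r ∈ lev q n P, (nn ρ r : ℝ) ≤ ∑ r ∈ range (q * n), (nn ρ r : ℝ) := by
      have := sum_lev q ρ n (by omega)
      exact_mod_cast this
    have h3 : ∑ r ∈ range (q * n), (nn ρ r : ℝ) ≤ C * ((q * n : ℕ) : ℝ) ^ (3 / 2 - δ₁) :=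
      hC (q * n) (Nat.mul_pos hq0 (by omega))
    have h4 : C * ((q * n : ℕ) : ℝ) ^ (3 / 2 - δ₁) ≤ D * (n:ℝ) ^ (3 / 2 - δ₁) := by
      rw [hD, Nat.cast_mul, Real.mul_rpow (by positivity) (by positivity), ← mul_assoc]
      refine mul_le_mul_of_nonneg_right ?_ (by positivity)
      exact mul_le_mul_of_nonneg_right (le_abs_self C) (by positivity)
    linarith
  have hhalf : ((n:ℝ) / 8) ^ (1 / 2 - δ) / 2 ≤ ((n:ℝ) / 8) ^ (1 / 2 - δ) - F := by
    have : 2 * F ≤ ((n:ℝ) / 8) ^ (1 / 2 - δ) := n2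
    linarith
  have hlog0 : 0 ≤ Real.log n := Real.log_nonneg hn1
  have hmain : (n:ℝ) / 4 * (((n:ℝ) / 8) ^ (1 / 2 - δ) / 2) ≤ D * (n:ℝ) ^ (3 / 2 - δ₁) * (n:ℝ) ^ (δ₁ / 4) := by
    calc (n:ℝ) / 4 * (((n:ℝ) / 8) ^ (1 / 2 - δ) / 2)
        ≤ ((PP n).card * Real.log n) * (((n:ℝ) / 8) ^ (1 / 2 - δ) - F) :=
          mul_le_mul n1 hhalf (by positivity) (by positivity)
      _ = ((PP n).card * (((n:ℝ) / 8) ^ (1 / 2 - δ) - F)) * Real.log n := by ring
      _ ≤ (D * (n:ℝ) ^ (3 / 2 - δ₁)) * Real.log n := mul_le_mul_of_nonneg_right hsum hlog0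
      _ ≤ D * (n:ℝ) ^ (3 / 2 - δ₁) * (n:ℝ) ^ (δ₁ / 4) :=
          mul_le_mul_of_nonneg_left n3 (by positivity)
  -- compare the exponents
  have e1 : D * (n:ℝ) ^ (3 / 2 - δ₁) * (n:ℝ) ^ (δ₁ / 4) = D * (n:ℝ) ^ (3 / 2 - 3 / 4 * δ₁) := by
    rw [mul_assoc, ← Real.rpow_add hn0]
    congr 2
    ring
  have e2 : (1 / 64 : ℝ) * (n:ℝ) ^ (3 / 2 - δ) ≤ (n:ℝ) / 4 * (((n:ℝ) / 8) ^ (1 / 2 - δ) / 2) := by
    rw [Real.div_rpow hn0.le (by norm_num)]
    have a1 : (8:ℝ) ^ (1 / 2 - δ) ≤ 8 := by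
      calc (8:ℝ) ^ (1 / 2 - δ) ≤ (8:ℝ) ^ (1:ℝ) :=
            Real.rpow_le_rpow_of_exponent_le (by norm_num) (by linarith)
        _ = 8 := Real.rpow_one _
    have a2 : (0:ℝ) < (8:ℝ) ^ (1 / 2 - δ) := by positivity
    have a3 : (n:ℝ) ^ (3 / 2 - δ) = n * (n:ℝ) ^ (1 / 2 - δ) := by
      rw [← Real.rpow_one_add' hn0.le (by linarith)]
      congr 1
      ring
    rw [a3]
    have a4 : (n:ℝ) ^ (1 / 2 - δ) / 8 ≤ (n:ℝ) ^ (1 / 2 - δ) / (8:ℝ) ^ (1 / 2 - δ) :=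
      div_le_div_of_nonneg_left (by positivity) a2 a1
    calc (1 / 64 : ℝ) * (n * (n:ℝ) ^ (1 / 2 - δ)) = n / 4 * ((n:ℝ) ^ (1 / 2 - δ) / 8 / 2) := by ring
      _ ≤ n / 4 * ((n:ℝ) ^ (1 / 2 - δ) / (8:ℝ) ^ (1 / 2 - δ) / 2) := by gcongr
  have e3 : (n:ℝ) ^ (δ₁ / 2) * (n:ℝ) ^ (3 / 2 - 3 / 4 * δ₁) ≤ (n:ℝ) ^ (3 / 2 - δ) := by
    rw [← Real.rpow_add hn0]
    exact Real.rpow_le_rpow_of_exponent_le hn1 (by linarith)
  have e4 : 0 < (n:ℝ) ^ (3 / 2 - 3 / 4 * δ₁) := by positivity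
  have e5 : 64 * D * (n:ℝ) ^ (3 / 2 - 3 / 4 * δ₁) <
      (n:ℝ) ^ (δ₁ / 2) * (n:ℝ) ^ (3 / 2 - 3 / 4 * δ₁) := mul_lt_mul_of_pos_right n4 e4
  rw [e1] at hmain
  linarith

end Pool.Agent.T9h65.LZ
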